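import Pool.Agent.N65.GP.Defs

/-!
# Project GP (helper65), part LI (helper667): independence of `log |y_i - u|` and `1 / (y_i - u)`
-/

set_option autoImplicit false

namespace Pool.Agent.N667.GP

open Complex Polynomial Pool.Agent.N65.GP

/-- linearly independent functions have a nonzero determinant of values -/
theorem exists_det {N X : Type} [Fintype N] [DecidableEq N] (U : Set X) (g : X → N → ℝ)
    (h : ∀ A : N → ℝ, (∀ u ∈ U, ∑ p, A p * g u p = 0) → A = 0) :
    ∃ u : N → X, (∀ j, u j ∈ U) ∧ (Matrix.of fun j p : N => g (u j) p).det ≠ 0 := by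
  classical
  have hspan : ⊤ ≤ Submodule.span ℝ (g '' U) := by
    by_contra hcon
    have hlt : Submodule.span ℝ (g '' U) < ⊤ := lt_top_iff_ne_top.2 fun h' => hcon h'.ge
    obtain ⟨f, hf0, hf⟩ := Submodule.exists_le_ker_of_lt_top _ hlt
    apply hf0
    have hA := h (fun p => f (Pi.single p 1)) (fun u hu => by
      have h1 : f (g u) = 0 := hf (Submodule.subset_span ⟨u, hu, rfl⟩)
      have h2 : g u = ∑ p, g u p • (Pi.single p (1 : ℝ) : N → ℝ) := by
        rw [← pi_eq_sum_univ' (g u)]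
      rw [h2, map_sum] at h1
      rw [← h1]
      refine Finset.sum_congr rfl fun p _ => ?_
      rw [map_smul, smul_eq_mul, mul_comm])
    refine LinearMap.pi_ext' fun p => LinearMap.ext_ring ?_
    have := congrFun hA p
    simpa using this
  let b := Module.Basis.ofSpan hspan
  haveI : Fintype ((linearIndepOn_empty ℝ (id : (N → ℝ) → N → ℝ)).extend
      (Set.empty_subset (g '' U))) := FiniteDimensional.fintypeBasisIndex b
  have hcard : Fintype.card ((linearIndepOn_empty ℝ (id : (N → ℝ) → N → ℝ)).extend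
      (Set.empty_subset (g '' U))) = Fintype.card N := by
    rw [← Module.finrank_eq_card_basis b, Module.finrank_fintype_fun_eq_card]
  let e := Fintype.equivOfCardEq hcard
  have hb : ∀ j : N, ∃ u ∈ U, g u = b (e.symm j) := by
    intro j
    exact Module.Basis.ofSpan_subset hspan ⟨e.symm j, rfl⟩
  choose u hu hu2 using hb
  refine ⟨u, hu, ?_⟩
  have hli : LinearIndependent ℝ (fun j => g (u j)) := by
    have h1 : LinearIndependent ℝ (fun j => b (e.symm j)) :=
      b.linearIndependent.comp e.symm e.symm.injective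
    have h2 : (fun j => g (u j)) = fun j => b (e.symm j) := funext hu2
    rw [h2]
    exact h1
  have h2 : IsUnit (Matrix.of fun j p : N => g (u j) p) :=
    Matrix.linearIndependent_rows_iff_isUnit.1 hli
  exact ((Matrix.isUnit_iff_isUnit_det _).1 h2).ne_zero

/-- sums of fractions with poles at given points -/
theorem pf {n : ℕ} {y : Fin n → ℂ} (hy : Function.Injective y) (N : ℕ) (hN : N ≠ 0)
    (q : Fin n → ℂ[X])
    (h : {u : ℂ | (∀ i, y i ≠ u) ∧ ∑ i, (q i).eval u / (u - y i) ^ N = 0}.Infinite) :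
    ∀ i, (q i).eval (y i) = 0 := by
  have hP : ∑ i, q i * ∏ l ∈ Finset.univ.erase i, (X - C (y l)) ^ N = 0 := by
    refine Polynomial.eq_zero_of_infinite_isRoot _ (h.mono ?_)
    rintro u ⟨hu, hs⟩
    show Polynomial.IsRoot _ u
    rw [Polynomial.IsRoot.def, eval_finset_sum]
    have h1 : ∀ i, (q i * ∏ l ∈ Finset.univ.erase i, (X - C (y l)) ^ N).eval u =
        (∏ l, (u - y l) ^ N) * ((q i).eval u / (u - y i) ^ N) := by
      intro i
      have h2 : (u - y i) ^ N ≠ 0 := pow_ne_zero _ (sub_ne_zero.2 (hu i).symm)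
      rw [eval_mul, eval_prod, ← Finset.mul_prod_erase Finset.univ _ (Finset.mem_univ i)]
      have h3 : ∀ l, ((X - C (y l)) ^ N : ℂ[X]).eval u = (u - y l) ^ N := fun l => by simp
      rw [Finset.prod_congr rfl fun l _ => h3 l]
      field_simp
    rw [Finset.sum_congr rfl fun i _ => h1 i, ← Finset.mul_sum, hs, mul_zero]
  intro i
  have h1 := congrArg (Polynomial.eval (y i)) hP
  rw [eval_finset_sum, eval_zero, Finset.sum_eq_single i] at h1
  · rw [eval_mul] at h1
    refine (mul_eq_zero.1 h1).resolve_right ?_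
    rw [eval_prod]
    refine Finset.prod_ne_zero_iff.2 fun l hl => ?_
    have h2 : y i ≠ y l := fun h2 => (Finset.ne_of_mem_erase hl) (hy h2).symm
    simpa [sub_eq_zero, hN] using h2
  · intro l _ hl
    rw [eval_mul, eval_prod, Finset.prod_eq_zero (Finset.mem_erase.2 ⟨Ne.symm hl, Finset.mem_univ i⟩),
      mul_zero]
    simp [hN]
  · intro h2
    exact absurd (Finset.mem_univ i) h2

section deriv

variable {z : ℝ → ℂ} {z' : ℂ} {t : ℝ}

theorem der_log (h : HasDerivAt z z' t) (h0 : z t ≠ 0) :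
    HasDerivAt (fun t => Real.log ‖z t‖) (z' / z t).re t := by
  have h1 := h.norm_sq
  have h2 := h1.log (by positivity)
  have h3 : (fun t => Real.log ‖z t‖) = fun t => (1 / 2 : ℝ) * Real.log (‖z t‖ ^ 2) := by
    funext t
    rw [Real.log_pow]
    push_cast
    ring
  rw [h3]
  refine (h2.const_mul (1 / 2 : ℝ)).congr_deriv ?_
  rw [Complex.inner, div_eq_mul_inv z', Complex.inv_def, ← Complex.normSq_eq_norm_sq]
  have h4 : z' * ((starRingEnd ℂ) (z t) * (((Complex.normSq (z t))⁻¹ : ℝ) : ℂ)) =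
      (((Complex.normSq (z t))⁻¹ : ℝ) : ℂ) * ((starRingEnd ℂ) (z t) * z') := by ring
  rw [h4, Complex.re_ofReal_mul]
  ring

theorem der_re (h : HasDerivAt z z' t) : HasDerivAt (fun t => (z t).re) z'.re t :=
  Complex.reCLM.hasFDerivAt.comp_hasDerivAt t h

theorem der_im (h : HasDerivAt z z' t) : HasDerivAt (fun t => (z t).im) z'.im t :=
  Complex.imCLM.hasFDerivAt.comp_hasDerivAt t h

end deriv

/-- the functions -/
noncomputable def gf {n : ℕ} (y b : Fin n → ℂ) (u : ℂ) (p : Fin n × Fin 3) : ℝ :=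
  (![Real.log ‖y p.1 - u‖, (b p.1 / (y p.1 - u)).re, (b p.1 / (y p.1 - u)).im] : Fin 3 → ℝ) p.2

theorem sum3 {n : ℕ} (f : Fin n × Fin 3 → ℝ) :
    ∑ p, f p = ∑ i, (f (i, 0) + f (i, 1) + f (i, 2)) := by
  rw [Fintype.sum_prod_type]
  refine Finset.sum_congr rfl fun i _ => ?_
  rw [Fin.sum_univ_three]

/-- the open set -/
def OO {n : ℕ} (y : Fin n → ℂ) (R : ℝ) : Set ℂ := {u | R < ‖u‖ ∧ ∀ i, y i ≠ u}

theorem isOpen_OO {n : ℕ} (y : Fin n → ℂ) (R : ℝ) : IsOpen (OO y R) := by
  have h1 : OO y R = {u | R < ‖u‖} ∩ (Set.range y)ᶜ := by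
    ext u
    simp [OO]
  rw [h1]
  exact (isOpen_lt continuous_const continuous_norm).inter (Set.finite_range y).isClosed.isOpen_compl

theorem infinite_OO {n : ℕ} (y : Fin n → ℂ) (R : ℝ) : (OO y R).Infinite := by
  have h1 : OO y R = {u | R < ‖u‖} \ (Set.range y) := by
    ext u
    simp [OO]
  rw [h1]
  refine Set.Infinite.diff ?_ (Set.finite_range y)
  refine Set.infinite_of_injective_forall_mem (f := fun k : ℕ => ((|R| + 1 + k : ℝ) : ℂ)) ?_ ?_
  · intro k l hkl
    have h2 : (|R| + 1 + k : ℝ) = |R| + 1 + l := Complex.ofReal_injective hkl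
    have h3 : (k : ℝ) = l := by linarith
    exact_mod_cast h3
  · intro k
    show R < ‖((|R| + 1 + k : ℝ) : ℂ)‖
    rw [Complex.norm_real, Real.norm_eq_abs, abs_of_pos (by positivity)]
    have := le_abs_self R
    have : (0 : ℝ) ≤ k := Nat.cast_nonneg k
    linarith

theorem cont_gf {n : ℕ} (y b : Fin n → ℂ) (R : ℝ) (p : Fin n × Fin 3) :
    ContinuousOn (fun u => gf y b u p) (OO y R) := by
  have h0 : ContinuousOn (fun u : ℂ => y p.1 - u) (OO y R) := continuousOn_const.sub continuousOn_id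
  have h1 : ∀ u ∈ OO y R, y p.1 - u ≠ 0 := fun u hu => sub_ne_zero.2 (hu.2 p.1)
  have h2 : ContinuousOn (fun u : ℂ => b p.1 / (y p.1 - u)) (OO y R) :=
    continuousOn_const.div h0 h1
  obtain ⟨i, j⟩ := p
  fin_cases j
  · exact (h0.norm).log fun u hu => norm_ne_zero_iff.2 (h1 u hu)
  · exact Complex.continuous_re.comp_continuousOn h2
  · exact Complex.continuous_im.comp_continuousOn h2

/-- independence -/
theorem indep {n : ℕ} {y b : Fin n → ℂ} {R : ℝ} {D : Set ℂ} (hD : Dense D)
    (hy : Function.Injective y) (hb : ∀ i, b i ≠ 0) (A : Fin n × Fin 3 → ℝ)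
    (h : ∀ u ∈ {u | u ∈ D ∧ R < ‖u‖ ∧ ∀ i, y i ≠ u}, ∑ p, A p * gf y b u p = 0) : A = 0 := by
  have hO := isOpen_OO y R
  -- the identity on the open set
  have h1 : ∀ u ∈ OO y R, ∑ p, A p * gf y b u p = 0 := by
    have hc : ContinuousOn (fun u => ∑ p, A p * gf y b u p) (OO y R) :=
      continuousOn_finset_sum _ fun p _ => continuousOn_const.mul (cont_gf y b R p)
    intro u hu
    by_contra hne
    obtain ⟨w, hwD, hw⟩ := hD.exists_mem_open (hc.isOpen_inter_preimage hO
      (isOpen_compl_singleton (x := (0 : ℝ)))) ⟨u, hu, hne⟩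
    exact hw.2 (h w ⟨hwD, hw.1.1, hw.1.2⟩)
  -- the coefficients
  obtain ⟨B, hB⟩ : ∃ B : Fin n → ℂ, ∀ i, B i = ((A (i, 1) : ℂ) - (A (i, 2) : ℂ) * I) * b i :=
    ⟨_, fun _ => rfl⟩
  -- the derivative
  have h2 : ∀ u ∈ OO y R, ∀ v : ℂ,
      (v * ∑ i, ((A (i, 0) : ℂ) * (u - y i) + B i) / (u - y i) ^ 2).re = 0 := by
    intro u hu v
    have hz : ∀ i, HasDerivAt (fun t : ℝ => y i - (u + t * v)) (-v) 0 := by
      intro i
      have h3 : HasDerivAt (fun t : ℝ => (t : ℂ) * v) (1 * v) 0 :=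
        (Complex.ofRealCLM.hasDerivAt (x := (0 : ℝ))).mul_const v
      have h4 := (h3.const_add u).const_sub (y i)
      rwa [one_mul] at h4
    have hz0 : ∀ i, (fun t : ℝ => y i - (u + t * v)) 0 ≠ 0 := by
      intro i
      show y i - (u + ((0 : ℝ) : ℂ) * v) ≠ 0
      rw [Complex.ofReal_zero, zero_mul, add_zero]
      exact sub_ne_zero.2 (hu.2 i)
    have hzv : ∀ i, y i - (u + ((0 : ℝ) : ℂ) * v) = y i - u := by
      intro i
      rw [Complex.ofReal_zero, zero_mul, add_zero]
    have hi : ∀ i, HasDerivAt (fun t : ℝ => A (i, 0) * gf y b (u + t * v) (i, 0) +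
        A (i, 1) * gf y b (u + t * v) (i, 1) + A (i, 2) * gf y b (u + t * v) (i, 2))
        (v * (((A (i, 0) : ℂ) * (u - y i) + B i) / (u - y i) ^ 2)).re 0 := by
      intro i
      have hne : y i - u ≠ 0 := sub_ne_zero.2 (hu.2 i)
      have hne' : u - y i ≠ 0 := sub_ne_zero.2 (hu.2 i).symm
      have a1 := der_log (hz i) (hz0 i)
      have a2 : HasDerivAt (fun t : ℝ => b i / (y i - (u + t * v)))
          (b i * v / (y i - u) ^ 2) 0 := by
        refine ((hasDerivAt_const (0 : ℝ) (b i)).div (hz i) (hz0 i)).congr_deriv ?_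
        simp only [hzv]
        ring
      refine (((a1.const_mul (A (i, 0))).add ((der_re a2).const_mul (A (i, 1)))).add
        ((der_im a2).const_mul (A (i, 2)))).congr_deriv ?_
      simp only [hzv]
      have e1 : (v * (((A (i, 0) : ℂ) * (u - y i) + B i) / (u - y i) ^ 2)) =
          (A (i, 0) : ℂ) * (-v / (y i - u)) +
            (((A (i, 1) : ℂ) - (A (i, 2) : ℂ) * I) * (b i * v / (y i - u) ^ 2)) := by
        rw [hB]
        have e2 : y i - u = -(u - y i) := by ring
        rw [e2]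
        field_simp
      rw [e1, Complex.add_re, Complex.re_ofReal_mul, sub_mul, Complex.sub_re,
        Complex.re_ofReal_mul, mul_assoc ((A (i, 2) : ℝ) : ℂ), Complex.re_ofReal_mul,
        Complex.I_mul_re]
      ring
    have hsum : HasDerivAt (fun t : ℝ => ∑ p, A p * gf y b (u + t * v) p)
        (v * ∑ i, ((A (i, 0) : ℂ) * (u - y i) + B i) / (u - y i) ^ 2).re 0 := by
      have h3 : (fun t : ℝ => ∑ p, A p * gf y b (u + t * v) p) = fun t : ℝ =>
          ∑ i, (A (i, 0) * gf y b (u + t * v) (i, 0) +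
        A (i, 1) * gf y b (u + t * v) (i, 1) + A (i, 2) * gf y b (u + t * v) (i, 2)) := by
        funext t
        exact sum3 fun p => A p * gf y b (u + t * v) p
      rw [h3, Finset.mul_sum, Complex.re_sum]
      exact HasDerivAt.fun_sum fun i _ => hi i
    have hzero : HasDerivAt (fun t : ℝ => ∑ p, A p * gf y b (u + t * v) p) 0 0 := by
      have h4 : (fun t : ℝ => ∑ p, A p * gf y b (u + t * v) p) =ᶠ[nhds 0] fun _ => (0 : ℝ) := by
        have h5 : Filter.Tendsto (fun t : ℝ => u + (t : ℂ) * v) (nhds 0) (nhds u) := by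
          have h6 : Continuous (fun t : ℝ => u + (t : ℂ) * v) := by fun_prop
          have h7 := h6.tendsto 0
          simpa using h7
        filter_upwards [h5.eventually (hO.mem_nhds hu)] with t ht
        exact h1 _ ht
      exact (hasDerivAt_const (0 : ℝ) (0 : ℝ)).congr_of_eventuallyEq h4
    exact hsum.unique hzero
  have h3 : ∀ u ∈ OO y R, ∑ i, ((A (i, 0) : ℂ) * (u - y i) + B i) / (u - y i) ^ 2 = 0 := by
    intro u hu
    apply Complex.ext
    · have := h2 u hu 1
      rwa [one_mul] at this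
    · have := h2 u hu I
      rw [Complex.I_mul_re] at this
      rw [Complex.zero_im]
      linarith
  have hB0 : ∀ i, B i = 0 := by
    intro i
    have h4 := pf hy 2 two_ne_zero (fun i => C (A (i, 0) : ℂ) * (X - C (y i)) + C (B i))
      ((infinite_OO y R).mono fun u hu => ⟨hu.2, by
        refine Eq.trans ?_ (h3 u hu)
        refine Finset.sum_congr rfl fun i _ => ?_
        simp⟩) i
    simpa using h4
  have hA0 : ∀ i, A (i, 0) = 0 := by
    intro i
    have h4 := pf hy 1 one_ne_zero (fun i => C (A (i, 0) : ℂ))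
      ((infinite_OO y R).mono fun u hu => ⟨hu.2, by
        refine Eq.trans ?_ (h3 u hu)
        refine Finset.sum_congr rfl fun i _ => ?_
        have hne : u - y i ≠ 0 := sub_ne_zero.2 (hu.2 i).symm
        rw [hB0, eval_C]
        field_simp
        ring⟩) i
    rw [eval_C] at h4
    exact_mod_cast h4
  have hAB : ∀ i, A (i, 1) = 0 ∧ A (i, 2) = 0 := by
    intro i
    have h4 := hB0 i
    rw [hB] at h4
    have h5 := (mul_eq_zero.1 h4).resolve_right (hb i)
    have h6 := congrArg Complex.re h5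
    have h7 := congrArg Complex.im h5
    simp at h6 h7
    exact ⟨h6, h7⟩
  funext p
  obtain ⟨i, j⟩ := p
  fin_cases j
  · exact hA0 i
  · exact (hAB i).1
  · exact (hAB i).2

theorem t_LI : S_LI := by
  intro n y b R D hD hy hb
  obtain ⟨u, hu, hdet⟩ := exists_det {u | u ∈ D ∧ R < ‖u‖ ∧ ∀ i, y i ≠ u} (gf y b)
    (indep hD hy hb)
  exact ⟨u, hu, hdet⟩

end Pool.Agent.N667.GP
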